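import Pool.Agent.Lib.MP_2eed13_lc.LCA.Base

/-! # Module DESC of project LCA: the descent finds the operation (helper81) -/

set_option autoImplicit false

namespace Pool.Agent.Lib.MP_2eed13_lc.LCA.H81

open Finset Pool.Agent.Lib.MP_2eed13_lc.LCA

/-- The operation described by a final state. -/
def fin (p b : ℕ) (G L : ℕ → ℕ) (x : ℕ × ℕ × ℕ × ℕ × ℕ) (R : ℕ → ℕ → ZMod p) :
    ℕ → ℕ → ZMod p :=
  if x.1 = 0 then addA x.2.1 (sgn p x.2.2.1) (bitsA p (L x.2.2.2.1)) R
  else if x.1 = 1 then R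
  else if x.1 = 2 then scaleA x.2.1 ((x.2.2.2.2 : ℕ) : ZMod p) R
  else if x.1 = 3 then addA x.2.1 (-(sgn p x.2.2.1)) (extA p b G (varA b x.2.1 R)) R
  else scaleA x.2.1 ((x.2.2.2.2 : ℕ) : ZMod p)⁻¹ R

/-- The invariant. -/
structure Inv (p b : ℕ) (G L : ℕ → ℕ) (J t k : ℕ) (x : ℕ × ℕ × ℕ × ℕ × ℕ) : Prop where
  zero : x.1 = 0 → ∀ R, actA p b G L J t J 0 0 R =
    actA p b G L (J - k) (t % (9 * (p - 1)) ^ (J - k)) x.2.2.2.1 x.2.1 x.2.2.1 R
  pos : x.1 ≠ 0 → ∀ R, actA p b G L J t J 0 0 R = fin p b G L x R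
  tag : x.1 ≤ 4
  reg : x.2.1 < 4
  sg : x.2.2.1 ≤ 1
  coef : 2 ≤ x.1 → 1 ≤ x.2.2.2.2 ∧ x.2.2.2.2 < p

theorem regOf_lt (r c : ℕ) : regOf r c < 4 := Nat.mod_lt _ (by norm_num)

theorem inv_step (p b : ℕ) (hp : 2 ≤ p) (G L : ℕ → ℕ) (J t k : ℕ) (hk : k < J)
    (x : ℕ × ℕ × ℕ × ℕ × ℕ) (h : Inv p b G L J t k x) :
    Inv p b G L J t (k + 1) (descStep (9 * (p - 1)) J t k x) := by
  obtain ⟨tag, r, s, i, a⟩ := x
  obtain ⟨h0, hpos, htag, hreg, hsg, hcoef⟩ := h
  simp only at h0 hpos htag hreg hsg hcoef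
  by_cases hx : tag = 0
  swap
  · have e : descStep (9 * (p - 1)) J t k (tag, r, s, i, a) = (tag, r, s, i, a) := by
      unfold descStep; simp [hx]
    rw [e]
    exact ⟨fun h => absurd h hx, hpos, htag, hreg, hsg, hcoef⟩
  subst hx
  have h0' := h0 rfl
  set M := 9 * (p - 1) with hM
  have hMpos : 0 < M := by omega
  set m := J - 1 - k with hm
  have hJk : J - k = m + 1 := by omega
  have hJk1 : J - (k + 1) = m := by omega
  set d := t / M ^ m % M with hd
  have hdM : d < M := Nat.mod_lt _ hMpos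
  have ha1 : 1 ≤ d / 9 + 1 := by omega
  have ha2 : d / 9 + 1 < p := by
    have : d / 9 < p - 1 := Nat.div_lt_of_lt_mul (by omega)
    omega
  have e1 : t % M ^ (m + 1) / M ^ m = d := by
    rw [pow_succ, Nat.mod_mul_right_div_self]
  have e2 : t % M ^ (m + 1) % M ^ m = t % M ^ m :=
    Nat.mod_mod_of_dvd _ (pow_dvd_pow _ (by omega))
  have hact : ∀ R, actA p b G L J t J 0 0 R =
      if isCall d ∨ t % M ^ m = 0 then
        slot p b G (fun i' r' s' => actA p b G L m (t % M ^ m) i' r' s') i r s d R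
      else R := by
    intro R
    rw [h0' R, hJk]
    show (if isCall (t % M ^ (m + 1) / M ^ m) ∨ t % M ^ (m + 1) % M ^ m = 0 then
        slot p b G (fun i' r' s' => actA p b G L m (t % M ^ (m + 1) % M ^ m) i' r' s') i r s
          (t % M ^ (m + 1) / M ^ m) R
      else R) = _
    rw [e1, e2]
  have hd9 : d % 9 < 9 := Nat.mod_lt _ (by norm_num)
  unfold descStep
  simp only [ne_eq, not_true_eq_false, if_false]
  rw [← hm, ← hd]
  by_cases c0 : d % 9 = 0
  · rw [if_pos c0]
    have hnc : ¬ isCall d := by unfold isCall; omega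
    by_cases ht : t % M ^ m = 0
    · rw [if_pos ht]
      refine ⟨fun h => absurd h (by simp), fun _ R => ?_, by simp, hreg, hsg, fun _ => ⟨ha1, ha2⟩⟩
      rw [hact R, if_pos (Or.inr ht)]
      unfold slot fin
      simp [c0]
    · rw [if_neg ht]
      refine ⟨fun h => absurd h (by simp), fun _ R => ?_, by simp, by simp, by simp,
        fun h => absurd h (by simp)⟩
      rw [hact R, if_neg (by tauto)]
      unfold fin
      simp
  rw [if_neg c0]
  by_cases c3 : d % 9 ≤ 3
  · rw [if_pos c3]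
    have hc : isCall d := by unfold isCall; omega
    refine ⟨fun _ R => ?_, fun h => absurd rfl h, by simp, regOf_lt _ _, by simp,
      fun h => absurd h (by simp)⟩
    rw [hact R, if_pos (Or.inl hc), hJk1]
    unfold slot
    simp only [c0, if_false, c3, if_true]
    rfl
  rw [if_neg c3]
  by_cases c4 : d % 9 = 4
  · rw [if_pos c4]
    have hnc : ¬ isCall d := by unfold isCall; omega
    by_cases ht : t % M ^ m = 0
    · rw [if_pos ht]
      refine ⟨fun h => absurd h (by simp), fun _ R => ?_, by simp, hreg, hsg, fun _ => ⟨ha1, ha2⟩⟩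
      rw [hact R, if_pos (Or.inr ht)]
      unfold slot fin
      simp [c4]
    · rw [if_neg ht]
      refine ⟨fun h => absurd h (by simp), fun _ R => ?_, by simp, by simp, by simp,
        fun h => absurd h (by simp)⟩
      rw [hact R, if_neg (by tauto)]
      unfold fin
      simp
  rw [if_neg c4]
  by_cases c7 : d % 9 ≤ 7
  · rw [if_pos c7]
    have hc : isCall d := by unfold isCall; omega
    refine ⟨fun _ R => ?_, fun h => absurd rfl h, by simp, regOf_lt _ _, by simp,
      fun h => absurd h (by simp)⟩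
    rw [hact R, if_pos (Or.inl hc), hJk1]
    unfold slot
    simp only [c0, if_false, c3, c4, c7, if_true]
    rfl
  rw [if_neg c7]
  have hnc : ¬ isCall d := by unfold isCall; omega
  by_cases ht : t % M ^ m = 0
  · rw [if_pos ht]
    refine ⟨fun h => absurd h (by simp), fun _ R => ?_, by simp, hreg, hsg, fun _ => ⟨ha1, ha2⟩⟩
    rw [hact R, if_pos (Or.inr ht)]
    unfold slot fin
    simp [c0, c3, c4, c7]
  · rw [if_neg ht]
    refine ⟨fun h => absurd h (by simp), fun _ R => ?_, by simp, by simp, by simp,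
      fun h => absurd h (by simp)⟩
    rw [hact R, if_neg (by tauto)]
    unfold fin
    simp

theorem inv_run (p b : ℕ) (hp : 2 ≤ p) (G L : ℕ → ℕ) (J t : ℕ) (ht : t < (9 * (p - 1)) ^ J)
    (k : ℕ) (hk : k ≤ J) :
    Inv p b G L J t k (runTo (descStep (9 * (p - 1)) J t) k (0, 0, 0, J, 0)) := by
  induction k with
  | zero =>
    refine ⟨fun _ R => ?_, fun h => absurd rfl h, by simp [runTo], by simp [runTo],
      by simp [runTo], fun h => absurd h (by simp [runTo])⟩
    simp only [runTo, Nat.sub_zero]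
    rw [Nat.mod_eq_of_lt ht]
  | succ k ih => exact inv_step p b hp G L J t k (by omega) _ (ih (by omega))

/-- Module DESC. -/
theorem desc : DescStatement := by
  intro p b hp G L J t ht R
  have h := inv_run p b hp G L J t ht J le_rfl
  change Inv p b G L J t J (LCA.desc (9 * (p - 1)) J t) at h
  obtain ⟨h0, hpos, htag, hreg, hsg, hcoef⟩ := h
  refine ⟨htag, hreg, hsg, hcoef, ?_⟩
  by_cases hx : (LCA.desc (9 * (p - 1)) J t).1 = 0
  · rw [if_pos hx, h0 hx R, Nat.sub_self]
    rfl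
  · have := hpos hx R
    rw [this]
    rfl

end Pool.Agent.Lib.MP_2eed13_lc.LCA.H81
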