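import Pool.Agent.Lib.MP_2eed13_lc.LCA.Base

/-! # Module OPS of project LCA: operations on numbers (helper81) -/

set_option autoImplicit false

namespace Pool.Agent.Lib.MP_2eed13_lc.LCA.H81

open Finset Pool.Agent.Lib.MP_2eed13_lc.LCA

theorem sum_digits_lt (q : ℕ) (_ : 0 < q) (c : ℕ → ℕ) (N : ℕ) (hc : ∀ k, k < N → c k < q) :
    ∑ k ∈ range N, c k * q ^ k < q ^ N := by
  induction N with
  | zero => simp
  | succ N ih =>
    rw [sum_range_succ, pow_succ]
    have h1 := ih fun k hk => hc k (by omega)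
    have h2 := hc N (by omega)
    have h3 : (c N + 1) * q ^ N ≤ q * q ^ N := Nat.mul_le_mul_right _ h2
    nlinarith

theorem dig_sum (q : ℕ) (hq : 0 < q) (c : ℕ → ℕ) (N : ℕ) (hc : ∀ k, k < N → c k < q) (i : ℕ)
    (hi : i < N) : dig q (∑ k ∈ range N, c k * q ^ k) i = c i := by
  induction N with
  | zero => omega
  | succ N ih =>
    rw [sum_range_succ]
    unfold dig
    by_cases h : i = N
    · subst h
      have h1 := sum_digits_lt q hq c i fun k hk => hc k (by omega)
      rw [Nat.add_mul_div_right _ _ (Nat.pow_pos hq), Nat.div_eq_of_lt h1, zero_add,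
        Nat.mod_eq_of_lt (hc i (by omega))]
    · have hiN : i < N := by omega
      have e : c N * q ^ N = (q * (c N * q ^ (N - i - 1))) * q ^ i := by
        have : q ^ N = q * q ^ (N - i - 1) * q ^ i := by
          rw [← pow_succ', ← pow_add]
          congr 1
          omega
        rw [this]; ring
      rw [e, Nat.add_mul_div_right _ _ (Nat.pow_pos hq), Nat.add_mul_mod_self_left]
      exact ih (fun k hk => hc k (by omega)) hiN

section
variable {p b C : ℕ}

theorem encR_dig (hp : p.Prime) (R : ℕ → ℕ → ZMod p) (i : ℕ) (hi : i < 4 * b) :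
    dig p (encR p b R) i = (R (i / b) (i % b)).val := by
  have := Fact.mk hp
  exact dig_sum p hp.pos (fun i => (R (i / b) (i % b)).val) (4 * b)
    (fun k _ => ZMod.val_lt _) i hi

theorem mk_eq (hC : p ^ (4 * b) ≤ C) (hp : 0 < p) (f : ℕ → ℕ) :
    mk C p (4 * b) f = ∑ i ∈ range (4 * b), f i * p ^ i := by
  unfold mk powc
  refine sum_congr rfl fun i hi => ?_
  rw [min_eq_left]
  exact (Nat.pow_le_pow_right hp (mem_range.1 hi).le).trans hC

theorem scaleN_eq (hp : p.Prime) (hC : p ^ (4 * b) ≤ C) (R : ℕ → ℕ → ZMod p) (r a : ℕ)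
    (z : ZMod p) (hz : (a : ZMod p) = z) :
    scaleN C p b r a (encR p b R) = encR p b (scaleA r z R) := by
  have := Fact.mk hp
  unfold scaleN
  rw [mk_eq hC hp.pos]
  unfold encR
  refine sum_congr rfl fun i hi => ?_
  have hd : dig p (∑ i ∈ range (4 * b), (R (i / b) (i % b)).val * p ^ i) i =
      (R (i / b) (i % b)).val := encR_dig hp R i (mem_range.1 hi)
  rw [hd]
  unfold scaleA
  congr 1
  split_ifs with h
  · rfl
  · rw [← hz]
    have : (a : ZMod p) * R (i / b) (i % b) = ((a * (R (i / b) (i % b)).val : ℕ) : ZMod p) := by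
      push_cast
      rw [ZMod.natCast_val, ZMod.cast_id]
    rw [this, ZMod.val_natCast]

theorem addN_eq (hp : p.Prime) (hC : p ^ (4 * b) ≤ C) (R : ℕ → ℕ → ZMod p) (r s : ℕ)
    (c : ℕ → ℕ) :
    addN C p b r s c (encR p b R) = encR p b (addA r (sgn p s) (fun k => (c k : ZMod p)) R) := by
  have := Fact.mk hp
  unfold addN
  rw [mk_eq hC hp.pos]
  unfold encR
  refine sum_congr rfl fun i hi => ?_
  have hd : dig p (∑ i ∈ range (4 * b), (R (i / b) (i % b)).val * p ^ i) i =
      (R (i / b) (i % b)).val := encR_dig hp R i (mem_range.1 hi)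
  rw [hd]
  unfold addA sgn
  congr 1
  split_ifs with h h2
  · have : R (i / b) (i % b) + 1 * (c (i % b) : ZMod p) =
        (((R (i / b) (i % b)).val + c (i % b) : ℕ) : ZMod p) := by
      push_cast
      rw [ZMod.natCast_val, ZMod.cast_id, one_mul]
    rw [this, ZMod.val_natCast]
  · have : R (i / b) (i % b) + -1 * (c (i % b) : ZMod p) =
        (((R (i / b) (i % b)).val + (p - c (i % b) % p) : ℕ) : ZMod p) := by
      rw [Nat.cast_add, Nat.cast_sub (Nat.mod_lt _ hp.pos).le, ZMod.natCast_val, ZMod.cast_id,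
        ZMod.natCast_self, ZMod.natCast_mod]
      ring
    rw [this, ZMod.val_natCast]
  · rfl

theorem powMod_cast (p a e : ℕ) : ((powMod p a e : ℕ) : ZMod p) = (a : ZMod p) ^ e := by
  induction e with
  | zero => simp [powMod]
  | succ e ih => rw [powMod, ZMod.natCast_mod, Nat.cast_mul, ih, pow_succ]

theorem prodMod_cast (p : ℕ) (f : ℕ → ℕ) (n : ℕ) :
    ((prodMod p f n : ℕ) : ZMod p) = ∏ v ∈ range n, (f v : ZMod p) := by
  induction n with
  | zero => simp [prodMod]
  | succ n ih => rw [prodMod, ZMod.natCast_mod, Nat.cast_mul, ih, prod_range_succ]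

end

/-- Module OPS. -/
theorem ops : OpsStatement := by
  intro C q T B p b hp hb hC2 hCp R r s a hr hs ha hap c
  have := Fact.mk hp
  refine ⟨?_, fun i hi => encR_dig hp R i hi, scaleN_eq hp hCp R r a _ rfl, ?_,
    addN_eq hp hCp R r s c, ?_, ?_⟩
  · exact sum_digits_lt p hp.pos (fun i => (R (i / b) (i % b)).val) (4 * b)
      (fun k _ => ZMod.val_lt _)
  · apply scaleN_eq hp hCp
    rw [powMod_cast]
    have ha0 : (a : ZMod p) ≠ 0 := by
      intro h
      rw [ZMod.natCast_eq_zero_iff] at h
      exact absurd (Nat.le_of_dvd (by omega) h) (by omega)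
    apply eq_inv_of_mul_eq_one_left
    rw [← pow_succ]
    have h2 := hp.two_le
    rw [show p - 2 + 1 = p - 1 by omega]
    exact ZMod.pow_card_sub_one_eq_one ha0
  · have : -(sgn p s) = sgn p (1 - s) := by
      interval_cases s <;> simp [sgn]
    rw [this]
    exact addN_eq hp hCp R r (1 - s) c
  · intro k
    unfold extN extA wtN
    rw [ZMod.natCast_mod, Nat.cast_sum]
    have e : powc 2 (3 * b) C = 2 ^ (3 * b) := min_eq_left hC2
    rw [e]
    refine sum_congr rfl fun u _ => ?_
    rw [Nat.cast_mul, prodMod_cast]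
    congr 1
    refine prod_congr rfl fun v hv => ?_
    have hreg : regOf r (v / b) < 4 := Nat.mod_lt _ (by norm_num)
    have hidx : regOf r (v / b) * b + v % b < 4 * b := by
      have h1 : v % b < b := Nat.mod_lt _ (by omega)
      have h2 : (regOf r (v / b) + 1) * b ≤ 4 * b := Nat.mul_le_mul_right _ hreg
      nlinarith
    have hdiv : (regOf r (v / b) * b + v % b) / b = regOf r (v / b) := by
      rw [add_comm, Nat.add_mul_div_right _ _ (by omega : 0 < b),
        Nat.div_eq_of_lt (Nat.mod_lt _ (by omega)), zero_add]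
    have hmod : (regOf r (v / b) * b + v % b) % b = v % b := by
      rw [add_comm, Nat.add_mul_mod_self_right, Nat.mod_mod]
    have hd := encR_dig (b := b) hp R (regOf r (v / b) * b + v % b) hidx
    rw [hdiv, hmod] at hd
    rw [hd]
    unfold varA
    split_ifs with h
    · rw [ZMod.natCast_val, ZMod.cast_id]
    · rw [ZMod.natCast_mod, Nat.cast_sub, Nat.cast_add, ZMod.natCast_val, ZMod.cast_id,
        ZMod.natCast_self, zero_add, Nat.cast_one]
      exact (ZMod.val_lt _).le.trans (by omega)

end Pool.Agent.Lib.MP_2eed13_lc.LCA.H81
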