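import Pool.Agent.Lib.MP_2eed13_lc.LCA.Base
import Pool.Agent.Lib.MP_2eed13_lc.LCA.H81.Ops

/-! # Module EVAL of project LCA: the evaluation on numbers (helper81) -/

set_option autoImplicit false

namespace Pool.Agent.Lib.MP_2eed13_lc.LCA.H81

open Finset Pool.Agent.Lib.MP_2eed13_lc.LCA

theorem blockMap_lt (C β T B u : ℕ) (hC : 0 < C) : blockMap C (2 ^ β) T B u < 2 ^ (B * β) := by
  unfold blockMap powc
  have h1 : 0 < min ((2 ^ β) ^ B) C := lt_min (by positivity) hC
  refine (Nat.mod_lt _ h1).trans_le ((min_le_left _ _).trans ?_)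
  rw [← pow_mul, mul_comm]

theorem cont_lt (C β s0 B J n i : ℕ) (hs : s0 < 2 ^ β) :
    cont C (2 ^ β) s0 B J n i < 2 ^ (B * β) := by
  have h1 : cont C (2 ^ β) s0 B J n i ≤ ∑ k ∈ range B,
      (if J * B + 1 ≤ i * B + k ∧ i * B + k ≤ n + J * B then s0 else 0) * (2 ^ β) ^ k := by
    unfold cont
    exact sum_le_sum fun k _ => Nat.mul_le_mul_left _ (min_le_left _ _)
  refine h1.trans_lt ?_
  have := sum_digits_lt (2 ^ β) (by positivity)
    (fun k => if J * B + 1 ≤ i * B + k ∧ i * B + k ≤ n + J * B then s0 else 0) B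
    (fun k _ => by split_ifs <;> omega)
  rw [mul_comm B β, pow_mul]
  exact this

theorem runTo_congr {X Y : Type} (f : ℕ → X → X) (g : ℕ → Y → Y) (e : X → Y) (N : ℕ)
    (h : ∀ t, t < N → ∀ x, g t (e x) = e (f t x)) (x : X) :
    runTo g N (e x) = e (runTo f N x) := by
  induction N with
  | zero => rfl
  | succ N ih =>
    show g N (runTo g N (e x)) = e (f N (runTo f N x))
    rw [ih fun t ht => h t (by omega), h N (by omega)]

/-- Module EVAL. -/
theorem eval (hCat : CatStatement) (hTime : TimeStatement) (hDesc : DescStatement)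
    (hOps : OpsStatement) : EvalStatement := by
  intro C β T s0 B J n p hβ hB hs0 hp h3b hC1 hC2 hC3
  have := Fact.mk hp
  set b := B * β with hb
  have hp2 := hp.two_le
  have hb1 : 1 ≤ b := by rw [hb]; exact Nat.mul_pos (by omega) hβ
  have hCpos : 0 < C := lt_of_lt_of_le (by positivity) hC1
  set G := blockMap C (2 ^ β) T B with hG
  set L := cont C (2 ^ β) s0 B J n with hL
  have hGlt : ∀ u, G u < 2 ^ b := fun u => blockMap_lt C β T B u hCpos
  have hLlt : ∀ i, L i < 2 ^ b := fun i => cont_lt C β s0 B J n i hs0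
  -- the step
  have hstep : ∀ t, t < (9 * (p - 1)) ^ J → ∀ R : ℕ → ℕ → ZMod p,
      actN C (2 ^ β) T s0 B J n p b t (encR p b R) = encR p b (actA p b G L J t J 0 0 R) := by
    intro t ht R
    obtain ⟨h1, h2, h3, h4, h5⟩ := hDesc p b hp2 G L J t ht R
    rw [h5]
    unfold actN opN
    set x := desc (9 * (p - 1)) J t with hx
    have ops1 := hOps C (2 ^ β) T B p b hp hb1 hC1 hC2 R x.2.1 x.2.2.1 1 h2 h3 le_rfl (by omega)
    by_cases c0 : x.1 = 0
    · rw [if_pos c0, if_pos c0]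
      exact (ops1 (fun k => dig 2 (L x.2.2.2.1) k)).2.2.2.2.1
    rw [if_neg c0, if_neg c0]
    by_cases c1 : x.1 = 1
    · rw [if_pos c1, if_pos c1]
    rw [if_neg c1, if_neg c1]
    obtain ⟨ha1, ha2⟩ := h4 (by omega)
    have ops2 := hOps C (2 ^ β) T B p b hp hb1 hC1 hC2 R x.2.1 x.2.2.1 x.2.2.2.2 h2 h3 ha1 ha2
      (fun _ => 0)
    by_cases c2 : x.1 = 2
    · rw [if_pos c2, if_pos c2]
      exact ops2.2.2.1
    rw [if_neg c2, if_neg c2]
    by_cases c3 : x.1 = 3
    · rw [if_pos c3, if_pos c3]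
      have h6 := ops1 (fun k => extN C (2 ^ β) T B p b x.2.1 (encR p b R) k)
      rw [h6.2.2.2.2.2.1]
      have h7 : (fun k => ((extN C (2 ^ β) T B p b x.2.1 (encR p b R) k : ℕ) : ZMod p)) =
          extA p b G (varA b x.2.1 R) := funext fun k => h6.2.2.2.2.2.2 k
      rw [h7]
    rw [if_neg c3, if_neg c3]
    exact ops2.2.2.2.1
  have h0 : encR p b (fun _ _ => 0) = 0 := by
    unfold encR
    simp
  have hmain : mainN C (2 ^ β) T s0 B J n p b =
      encR p b (addA 0 (sgn p 0) (bitsA p (tval b G L J J)) (fun _ _ => 0)) := by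
    unfold mainN
    have hpow : powc (9 * (p - 1)) J C = (9 * (p - 1)) ^ J := min_eq_left hC3
    rw [hpow]
    have h6 := runTo_congr (fun t => actA p b G L J t J 0 0)
      (actN C (2 ^ β) T s0 B J n p b) (encR p b) ((9 * (p - 1)) ^ J) hstep (fun _ _ => 0)
    rw [h0] at h6
    rw [h6, hTime p b hp2 G L J J 0 0, hCat p b hp h3b hb1 G L hGlt hLlt J J 0 0 (by norm_num)]
  rw [hmain]
  have hβb : β < b := by
    rw [hb]
    calc β < 2 * β := by omega
      _ ≤ B * β := Nat.mul_le_mul_right _ hB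
  rw [encR_dig hp _ β (by omega), Nat.div_eq_of_lt hβb, Nat.mod_eq_of_lt hβb]
  unfold addA sgn bitsA
  simp only [if_true, one_mul, zero_add]
  rw [ZMod.val_natCast, Nat.mod_eq_of_lt]
  have : dig 2 (tval b G L J J) β < 2 := Nat.mod_lt _ (by norm_num)
  omega

end Pool.Agent.Lib.MP_2eed13_lc.LCA.H81
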